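import Pool.Agent.N102.MW.Rec
import Pool.Agent.W225.MWDIO

/-! # Bounds for the number of solutions of the system of degrees `1, k` -/

set_option autoImplicit false

open Finset

namespace Pool.Agent.N102.MW

open Pool.Agent.TH181.MW (tup J LS AA ph TT Lam)

/-- the number of solutions in `2 s` variables is at most `N ^ (2 s - m + o(1))` -/
def BdJ (s m k : ℕ) : Prop := ∀ δ : ℝ, 0 < δ → ∃ C : ℝ, 0 < C ∧ ∀ N : ℕ, 1 ≤ N →
  (J s k N : ℝ) ≤ C * (N : ℝ) ^ (2 * (s : ℝ) - m + δ)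

theorem dl_le (s k N : ℕ) (z : (Fin s → ℕ) × (Fin s → ℕ)) (hz : z ∈ T2 s N) :
    (dl s k z).natAbs ≤ s * N ^ k := by
  unfold T2 Pool.Agent.TH181.MW.tup at hz
  rw [Finset.mem_product, Fintype.mem_piFinset, Fintype.mem_piFinset] at hz
  have h1 : ∀ x : Fin s → ℕ, (∀ i, x i ∈ Icc 1 N) → ∑ i, x i ^ k ≤ s * N ^ k := by
    intro x hx
    calc ∑ i, x i ^ k ≤ ∑ _i : Fin s, N ^ k :=
          Finset.sum_le_sum fun i _ => Nat.pow_le_pow_left (Finset.mem_Icc.1 (hx i)).2 k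
      _ = s * N ^ k := by simp
  have h2 := h1 z.1 hz.1
  have h3 := h1 z.2 hz.2
  unfold dl
  omega

theorem step (s m k j : ℕ) (hs : 1 ≤ s) (hj : 1 ≤ j) (hjk : j + 1 < k) (hm : m ≤ j + 2)
    (h : BdJ s m k) : BdJ (s + 2 ^ j) (m + 1) k := by
  intro δ hδ
  obtain ⟨C, hC0, hC⟩ := h δ hδ
  have hk0 : (0 : ℝ) < k := by
    have : 0 < k := by omega
    exact_mod_cast this
  have hj0 : (0 : ℝ) < (j : ℝ) + 1 := by positivity
  have hs0 : (0 : ℝ) < s := by exact_mod_cast hs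
  set δ' : ℝ := δ / (k * ((j : ℝ) + 1)) with hδ'
  have hδ'0 : 0 < δ' := by positivity
  obtain ⟨C0, hC00, hdiv⟩ := Pool.Agent.Helper112.divisor_bound δ' hδ'0
  set P : ℕ := 2 ^ (j + 1) - (j + 1) - 1 with hP
  have hPj : P + j + 2 = 2 ^ (j + 1) := by
    have h1 : j + 2 ≤ 2 ^ (j + 1) := by
      have := Pool.Agent.TH181.MW.two_pow_ge (j + 1)
      omega
    omega
  set C2 : ℝ := (2 * (C0 * (s : ℝ) ^ δ')) ^ (j + 1) * k with hC2
  have hC2' : 0 < C2 := by positivity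
  refine ⟨3 ^ P * ((j + 1 + k) * 3 ^ (j + 1)) * C + 3 ^ P * C2, by positivity, fun N hN => ?_⟩
  have hN' : (1 : ℝ) ≤ (N : ℝ) := by exact_mod_cast hN
  have hN0 : (0 : ℝ) < (N : ℝ) := by linarith
  set D : ℕ := ⌊C0 * ((s : ℝ) * (N : ℝ) ^ k) ^ δ'⌋₊ with hD
  have hDb : ∀ z ∈ E2 s N, dl s k z ≠ 0 → (dl s k z).natAbs.divisors.card ≤ D := by
    intro z hz h0
    rw [hD]
    apply Nat.le_floor
    refine (hdiv _ (Int.natAbs_pos.2 h0)).trans ?_
    apply mul_le_mul_of_nonneg_left _ hC00.le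
    apply Real.rpow_le_rpow (by positivity) _ hδ'0.le
    have := dl_le s k N z (Finset.mem_filter.1 hz).1
    exact_mod_cast this
  have hDr : (2 * (D : ℝ)) ^ (j + 1) * k ≤ C2 * (N : ℝ) ^ δ := by
    have h1 : (D : ℝ) ≤ C0 * ((s : ℝ) * (N : ℝ) ^ k) ^ δ' := Nat.floor_le (by positivity)
    have h2 : ((s : ℝ) * (N : ℝ) ^ k) ^ δ' = (s : ℝ) ^ δ' * (N : ℝ) ^ (k * δ') := by
      rw [Real.mul_rpow (by positivity) (by positivity), ← Real.rpow_natCast (N : ℝ) k,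
        ← Real.rpow_mul hN0.le]
    have h3 : 2 * (D : ℝ) ≤ 2 * (C0 * (s : ℝ) ^ δ') * (N : ℝ) ^ (k * δ') := by
      rw [h2] at h1
      calc 2 * (D : ℝ) ≤ 2 * (C0 * ((s : ℝ) ^ δ' * (N : ℝ) ^ (k * δ'))) := by linarith
        _ = _ := by ring
    have h4 := pow_le_pow_left₀ (by positivity) h3 (j + 1)
    have h5 : ((N : ℝ) ^ (k * δ')) ^ (j + 1) = (N : ℝ) ^ δ := by
      rw [← Real.rpow_natCast ((N : ℝ) ^ (k * δ')) (j + 1), ← Real.rpow_mul hN0.le]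
      congr 1
      rw [hδ']
      push_cast
      field_simp
    rw [mul_pow (2 * (C0 * (s : ℝ) ^ δ')) ((N : ℝ) ^ (k * δ')) (j + 1), h5] at h4
    calc (2 * (D : ℝ)) ^ (j + 1) * k ≤ ((2 * (C0 * (s : ℝ) ^ δ')) ^ (j + 1) * (N : ℝ) ^ δ) * k :=
          mul_le_mul_of_nonneg_right h4 hk0.le
      _ = C2 * (N : ℝ) ^ δ := by rw [hC2]; ring
  have hE : ((E2 s N).card : ℝ) ≤ (N : ℝ) ^ (2 * (s : ℝ) - 1) := by
    obtain ⟨r, rfl⟩ : ∃ r, s = r + 1 := ⟨s - 1, by omega⟩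
    have h1 := E2_card r N
    have h2 : ((E2 (r + 1) N).card : ℝ) ≤ (N : ℝ) ^ (2 * r + 1) := by exact_mod_cast h1
    refine h2.trans (le_of_eq ?_)
    rw [← Real.rpow_natCast]
    congr 1
    push_cast
    ring
  have h1 := main_ineq s k N j hj
  rw [← hP] at h1
  have h2 : ((∑ w ∈ Lam N (j + 1), cnt s k N (phk k w) : ℕ) : ℝ) ≤
      (((j : ℝ) + 1 + k) * (2 * (N : ℝ) + 1) ^ (j + 1)) * J s k N +
        (E2 s N).card * ((2 * (D : ℝ)) ^ (j + 1) * k) := by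
    exact_mod_cast sum_cnt s k N j D hjk hDb
  have h3 : 2 * (N : ℝ) + 1 ≤ 3 * N := by linarith
  have h4 : (2 * (N : ℝ) + 1) ^ P ≤ 3 ^ P * (N : ℝ) ^ P := by
    rw [← mul_pow]
    exact pow_le_pow_left₀ (by positivity) h3 P
  have h5 : (2 * (N : ℝ) + 1) ^ (j + 1) ≤ 3 ^ (j + 1) * (N : ℝ) ^ (j + 1) := by
    rw [← mul_pow]
    exact pow_le_pow_left₀ (by positivity) h3 (j + 1)
  have h6 := hC N hN
  have hJ0 : (0 : ℝ) ≤ (J s k N : ℝ) := Nat.cast_nonneg _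
  have hT : (N : ℝ) ^ P * ((N : ℝ) ^ (j + 1) * (N : ℝ) ^ (2 * (s : ℝ) - m + δ)) =
      (N : ℝ) ^ (2 * ((s + 2 ^ j : ℕ) : ℝ) - ((m + 1 : ℕ) : ℝ) + δ) := by
    rw [← Real.rpow_natCast (N : ℝ) P, ← Real.rpow_natCast (N : ℝ) (j + 1), ← Real.rpow_add hN0,
      ← Real.rpow_add hN0]
    congr 1
    have : (P : ℝ) + j + 2 = 2 ^ (j + 1) := by exact_mod_cast hPj
    rw [pow_succ] at this
    push_cast
    linarith
  have hT2 : (N : ℝ) ^ P * ((N : ℝ) ^ (2 * (s : ℝ) - 1) * (N : ℝ) ^ δ) ≤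
      (N : ℝ) ^ (2 * ((s + 2 ^ j : ℕ) : ℝ) - ((m + 1 : ℕ) : ℝ) + δ) := by
    rw [← Real.rpow_natCast (N : ℝ) P, ← Real.rpow_add hN0, ← Real.rpow_add hN0]
    apply Real.rpow_le_rpow_of_exponent_le hN'
    have h7 : (P : ℝ) + j + 2 = 2 ^ (j + 1) := by exact_mod_cast hPj
    have h8 : (m : ℝ) ≤ j + 2 := by exact_mod_cast hm
    rw [pow_succ] at h7
    push_cast
    linarith
  calc (J (s + 2 ^ j) k N : ℝ) ≤ (2 * (N : ℝ) + 1) ^ P *
        ((∑ w ∈ Lam N (j + 1), cnt s k N (phk k w) : ℕ) : ℝ) := h1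
    _ ≤ (3 ^ P * (N : ℝ) ^ P) * ((((j : ℝ) + 1 + k) * (3 ^ (j + 1) * (N : ℝ) ^ (j + 1))) *
          (C * (N : ℝ) ^ (2 * (s : ℝ) - m + δ)) +
          (N : ℝ) ^ (2 * (s : ℝ) - 1) * (C2 * (N : ℝ) ^ δ)) := by
        apply mul_le_mul h4 _ (by positivity) (by positivity)
        refine h2.trans (add_le_add ?_ ?_)
        · apply mul_le_mul _ h6 hJ0 (by positivity)
          exact mul_le_mul_of_nonneg_left h5 (by positivity)
        · exact mul_le_mul hE hDr (by positivity) (by positivity)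
    _ = (3 ^ P * ((j + 1 + k) * 3 ^ (j + 1)) * C) *
          ((N : ℝ) ^ P * ((N : ℝ) ^ (j + 1) * (N : ℝ) ^ (2 * (s : ℝ) - m + δ))) +
          3 ^ P * C2 * ((N : ℝ) ^ P * ((N : ℝ) ^ (2 * (s : ℝ) - 1) * (N : ℝ) ^ δ)) := by ring
    _ ≤ (3 ^ P * ((j + 1 + k) * 3 ^ (j + 1)) * C) *
          (N : ℝ) ^ (2 * ((s + 2 ^ j : ℕ) : ℝ) - ((m + 1 : ℕ) : ℝ) + δ) +
          3 ^ P * C2 * (N : ℝ) ^ (2 * ((s + 2 ^ j : ℕ) : ℝ) - ((m + 1 : ℕ) : ℝ) + δ) := by
        rw [hT]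
        exact add_le_add le_rfl (mul_le_mul_of_nonneg_left hT2 (by positivity))
    _ = _ := by ring

theorem base (k : ℕ) (hk : 2 ≤ k) : BdJ 2 2 k := by
  classical
  intro δ hδ
  refine ⟨2, by norm_num, fun N hN => ?_⟩
  have hN' : (1 : ℝ) ≤ (N : ℝ) := by exact_mod_cast hN
  have h1 : J 2 k N ≤ 2 * N ^ 2 := by
    have hsub : ((tup 2 N) ×ˢ (tup 2 N)).filter
        (fun z => ∑ i, z.1 i = ∑ i, z.2 i ∧ ∑ i, z.1 i ^ k = ∑ i, z.2 i ^ k) ⊆
        ((tup 2 N).image fun x => (x, x)) ∪ ((tup 2 N).image fun x => (x, ![x 1, x 0])) := by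
      rintro ⟨x, y⟩ hz
      rw [Finset.mem_filter, Finset.mem_product] at hz
      obtain ⟨⟨hx, hy⟩, e1, e2⟩ := hz
      simp only [Fin.sum_univ_two] at e1 e2 hx hy
      have hx' := hx
      have hy' := hy
      unfold Pool.Agent.TH181.MW.tup at hx' hy'
      rw [Fintype.mem_piFinset] at hx' hy'
      have g1 := Finset.mem_Icc.1 (hx' 0)
      have h3 := Pool.Agent.W225.MWD.t k (x 0) (x 1) (y 0) (y 1) hk e1
      have e3 : (x 0 : ℝ) ^ k + (x 1 : ℝ) ^ k - (y 0 : ℝ) ^ k - (y 1 : ℝ) ^ k = 0 := by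
        have : (x 0 : ℝ) ^ k + (x 1 : ℝ) ^ k = (y 0 : ℝ) ^ k + (y 1 : ℝ) ^ k := by exact_mod_cast e2
        linarith
      rw [e3, abs_zero] at h3
      have h4 : (0 : ℝ) < (max (max (x 0 : ℝ) (x 1 : ℝ)) (max (y 0 : ℝ) (y 1 : ℝ))) ^ (k - 2) := by
        have : (0 : ℝ) < max (max (x 0 : ℝ) (x 1 : ℝ)) (max (y 0 : ℝ) (y 1 : ℝ)) := by
          apply lt_max_of_lt_left
          apply lt_max_of_lt_left
          exact_mod_cast g1.1
        positivity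
      have h5 : |(x 0 : ℝ) - y 0| * |(x 0 : ℝ) - y 1| = 0 := by
        apply le_antisymm _ (by positivity)
        by_contra hcon
        rw [not_le] at hcon
        have := mul_pos hcon h4
        linarith
      rw [Finset.mem_union, Finset.mem_image, Finset.mem_image]
      rcases mul_eq_zero.1 h5 with h6 | h6
      · left
        have h7 : (x 0 : ℝ) = y 0 := sub_eq_zero.1 (abs_eq_zero.1 h6)
        have h8 : x 0 = y 0 := by exact_mod_cast h7
        refine ⟨x, hx, ?_⟩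
        rw [Prod.mk.injEq]
        refine ⟨rfl, ?_⟩
        funext i
        fin_cases i
        · exact h8
        · show x 1 = y 1
          omega
      · right
        have h7 : (x 0 : ℝ) = y 1 := sub_eq_zero.1 (abs_eq_zero.1 h6)
        have h8 : x 0 = y 1 := by exact_mod_cast h7
        refine ⟨x, hx, ?_⟩
        rw [Prod.mk.injEq]
        refine ⟨rfl, ?_⟩
        funext i
        fin_cases i
        · show x 1 = y 0
          omega
        · exact h8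
    unfold Pool.Agent.TH181.MW.J
    refine (Finset.card_le_card hsub).trans ((Finset.card_union_le _ _).trans ?_)
    have a1 : ((tup 2 N).image fun x => (x, x)).card ≤ (tup 2 N).card := Finset.card_image_le
    have a2 : ((tup 2 N).image fun x : Fin 2 → ℕ => (x, ![x 1, x 0])).card ≤ (tup 2 N).card :=
      Finset.card_image_le
    rw [tup_card] at a1 a2
    omega
  have h2 : (J 2 k N : ℝ) ≤ 2 * (N : ℝ) ^ 2 := by exact_mod_cast h1
  refine h2.trans ?_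
  apply mul_le_mul_of_nonneg_left _ (by norm_num)
  rw [← Real.rpow_natCast]
  apply Real.rpow_le_rpow_of_exponent_le hN'
  push_cast
  linarith

theorem hua (k : ℕ) : ∀ i : ℕ, 1 ≤ i → i < k → 3 ≤ k → BdJ (2 + 2 ^ i) (i + 2) k := by
  intro i hi
  induction i, hi using Nat.le_induction with
  | base =>
    intro _ hk
    exact step 2 2 k 1 (by norm_num) le_rfl (by omega) (by omega) (base k (by omega))
  | succ i hi ih =>
    intro h1 hk
    have h2 := step (2 + 2 ^ i) (i + 2) k i (Nat.le_add_right_of_le (by norm_num)) hi h1 (by omega) (ih (by omega) hk)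
    have e1 : 2 + 2 ^ i + 2 ^ i = 2 + 2 ^ (i + 1) := by rw [pow_succ]; ring
    rw [e1] at h2
    exact h2

end Pool.Agent.N102.MW
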