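import Pool.Agent.N102.MW.Bd

/-! # The system of degrees `1, 3` in six variables -/

set_option autoImplicit false

open Finset

namespace Pool.Agent.N102.MW

open Pool.Agent.TH181.MW (tup J)

theorem cub_id (a b c x y z : ℤ) (h1 : a + b + c = x + y + z)
    (h3 : a ^ 3 + b ^ 3 + c ^ 3 = x ^ 3 + y ^ 3 + z ^ 3) :
    (a + b) * (b + c) * (c + a) = (x + y) * (y + z) * (z + x) := by
  have e1 : 3 * ((a + b) * (b + c) * (c + a)) = (a + b + c) ^ 3 - (a ^ 3 + b ^ 3 + c ^ 3) := by ring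
  have e2 : 3 * ((x + y) * (y + z) * (z + x)) = (x + y + z) ^ 3 - (x ^ 3 + y ^ 3 + z ^ 3) := by ring
  have : 3 * ((a + b) * (b + c) * (c + a)) = 3 * ((x + y) * (y + z) * (z + x)) := by
    rw [e1, e2, h1, h3]
  linarith

theorem cub_fib (N D : ℕ) (hD : ∀ A : ℕ, 1 ≤ A → A ≤ 8 * N ^ 3 → A.divisors.card ≤ D)
    (x : Fin 3 → ℕ) (hx : x ∈ tup 3 N) :
    ((tup 3 N).filter (fun y => ∑ i, x i = ∑ i, y i ∧ ∑ i, x i ^ 3 = ∑ i, y i ^ 3)).card ≤ D ^ 2 := by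
  classical
  have hx' := hx
  unfold Pool.Agent.TH181.MW.tup at hx'
  rw [Fintype.mem_piFinset] at hx'
  have g0 := Finset.mem_Icc.1 (hx' 0)
  have g1 := Finset.mem_Icc.1 (hx' 1)
  have g2 := Finset.mem_Icc.1 (hx' 2)
  obtain ⟨A, hA⟩ : ∃ A : ℕ, A = (x 0 + x 1) * (x 1 + x 2) * (x 2 + x 0) := ⟨_, rfl⟩
  have hA1 : 1 ≤ A := by
    rw [hA]
    have : 0 < (x 0 + x 1) * (x 1 + x 2) * (x 2 + x 0) := by
      have a0 : 0 < x 0 := g0.1
      have a1 : 0 < x 1 := g1.1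
      have a2 : 0 < x 2 := g2.1
      positivity
    exact this
  have hA2 : A ≤ 8 * N ^ 3 := by
    rw [hA]
    calc (x 0 + x 1) * (x 1 + x 2) * (x 2 + x 0) ≤ (2 * N) * (2 * N) * (2 * N) := by
          apply Nat.mul_le_mul (Nat.mul_le_mul _ _) <;> omega
      _ = 8 * N ^ 3 := by ring
  have hcard : (A.divisors ×ˢ A.divisors).card ≤ D ^ 2 := by
    rw [Finset.card_product, sq]
    exact Nat.mul_le_mul (hD A hA1 hA2) (hD A hA1 hA2)
  refine le_trans ?_ hcard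
  apply Finset.card_le_card_of_injOn (fun y => (y 0 + y 1, y 1 + y 2))
  · intro y hy
    rw [Finset.mem_coe, Finset.mem_filter] at hy
    obtain ⟨_, e1, e3⟩ := hy
    simp only [Fin.sum_univ_three] at e1 e3
    have h4 := cub_id (x 0) (x 1) (x 2) (y 0) (y 1) (y 2) (by exact_mod_cast e1)
      (by exact_mod_cast e3)
    have h5 : A = (y 0 + y 1) * (y 1 + y 2) * (y 2 + y 0) := by
      rw [hA]
      exact_mod_cast h4
    rw [Finset.mem_coe, Finset.mem_product, Nat.mem_divisors, Nat.mem_divisors]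
    refine ⟨⟨?_, by omega⟩, ⟨?_, by omega⟩⟩
    · exact ⟨(y 1 + y 2) * (y 2 + y 0), by rw [h5]; ring⟩
    · exact ⟨(y 0 + y 1) * (y 2 + y 0), by rw [h5]; ring⟩
  · intro y hy y' hy' h
    rw [Finset.mem_coe, Finset.mem_filter] at hy hy'
    have e1 := hy.2.1
    have e2 := hy'.2.1
    simp only [Fin.sum_univ_three] at e1 e2
    simp only [Prod.mk.injEq] at h
    funext i
    fin_cases i
    · show y 0 = y' 0
      omega
    · show y 1 = y' 1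
      omega
    · show y 2 = y' 2
      omega

theorem cubic : BdJ 3 3 3 := by
  classical
  intro δ hδ
  set δ' : ℝ := δ / 6 with hδ'
  have hδ'0 : 0 < δ' := by positivity
  obtain ⟨C0, hC00, hdiv⟩ := Pool.Agent.Helper112.divisor_bound δ' hδ'0
  refine ⟨(C0 * (8 : ℝ) ^ δ') ^ 2, by positivity, fun N hN => ?_⟩
  have hN' : (1 : ℝ) ≤ (N : ℝ) := by exact_mod_cast hN
  have hN0 : (0 : ℝ) < (N : ℝ) := by linarith
  set D : ℕ := ⌊C0 * ((8 : ℝ) * (N : ℝ) ^ 3) ^ δ'⌋₊ with hD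
  have hDb : ∀ A : ℕ, 1 ≤ A → A ≤ 8 * N ^ 3 → A.divisors.card ≤ D := by
    intro A hA hA2
    rw [hD]
    apply Nat.le_floor
    refine (hdiv _ hA).trans ?_
    apply mul_le_mul_of_nonneg_left _ hC00.le
    apply Real.rpow_le_rpow (by positivity) _ hδ'0.le
    exact_mod_cast hA2
  have h1 : J 3 3 N ≤ N ^ 3 * D ^ 2 := by
    have h2 : J 3 3 N = ∑ x ∈ tup 3 N,
        ((tup 3 N).filter (fun y => ∑ i, x i = ∑ i, y i ∧ ∑ i, x i ^ 3 = ∑ i, y i ^ 3)).card := by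
      unfold Pool.Agent.TH181.MW.J
      rw [Finset.card_eq_sum_ones, Finset.sum_filter, Finset.sum_product]
      apply Finset.sum_congr rfl
      intro x _
      rw [Finset.card_eq_sum_ones, Finset.sum_filter]
    rw [h2]
    refine (Finset.sum_le_sum fun x hx => cub_fib N D hDb x hx).trans ?_
    rw [Finset.sum_const, smul_eq_mul, tup_card]
  have h2 : (J 3 3 N : ℝ) ≤ (N : ℝ) ^ 3 * (D : ℝ) ^ 2 := by exact_mod_cast h1
  refine h2.trans ?_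
  have h3 : (D : ℝ) ≤ C0 * ((8 : ℝ) * (N : ℝ) ^ 3) ^ δ' := Nat.floor_le (by positivity)
  have h4 : ((8 : ℝ) * (N : ℝ) ^ 3) ^ δ' = (8 : ℝ) ^ δ' * (N : ℝ) ^ (3 * δ') := by
    rw [Real.mul_rpow (by positivity) (by positivity), ← Real.rpow_natCast (N : ℝ) 3,
      ← Real.rpow_mul hN0.le]
    norm_num
  rw [h4] at h3
  have h5 : (D : ℝ) ^ 2 ≤ (C0 * ((8 : ℝ) ^ δ' * (N : ℝ) ^ (3 * δ'))) ^ 2 :=
    pow_le_pow_left₀ (Nat.cast_nonneg _) h3 2
  have h6 : (C0 * ((8 : ℝ) ^ δ' * (N : ℝ) ^ (3 * δ'))) ^ 2 =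
      (C0 * (8 : ℝ) ^ δ') ^ 2 * (N : ℝ) ^ δ := by
    have : ((N : ℝ) ^ (3 * δ')) ^ 2 = (N : ℝ) ^ δ := by
      rw [← Real.rpow_natCast ((N : ℝ) ^ (3 * δ')) 2, ← Real.rpow_mul hN0.le]
      congr 1
      rw [hδ']
      push_cast
      ring
    rw [← this]
    ring
  rw [h6] at h5
  calc (N : ℝ) ^ 3 * (D : ℝ) ^ 2 ≤ (N : ℝ) ^ 3 * ((C0 * (8 : ℝ) ^ δ') ^ 2 * (N : ℝ) ^ δ) :=
        mul_le_mul_of_nonneg_left h5 (by positivity)
    _ = (C0 * (8 : ℝ) ^ δ') ^ 2 * ((N : ℝ) ^ (3 : ℝ) * (N : ℝ) ^ δ) := by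
        rw [← Real.rpow_natCast (N : ℝ) 3]
        push_cast
        ring
    _ = _ := by
        rw [← Real.rpow_add hN0]
        congr 2
        push_cast
        ring

end Pool.Agent.N102.MW
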