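import Pool.Agent.N102.MW.Cubic
import Pool.Agent.TH181.MW.Cov

/-! # The Hausdorff dimension of the exceptional leading coefficients -/

set_option autoImplicit false

open Finset MeasureTheory

namespace Pool.Agent.N102.MW

open Pool.Agent.W928.MW (sm sm_le ev_pow ev_log)
open Pool.Agent.TH181.MW (J)

/-- bad leading coefficients at scale `2^i` -/
def BB (k : ℕ) (θ : ℝ) (j : ℤ) (i : ℕ) : Set ℝ :=
  {t : ℝ | t ∈ Set.Icc (j : ℝ) ((j : ℝ) + 1) ∧ ∃ M : ℕ, M ≤ 2 ^ i ∧ 2 ^ i ≤ 2 * M ∧ ∃ ξ : ℝ,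
    (M : ℝ) ^ θ < ‖sm k M t ξ‖}

theorem cover (s m k : ℕ) (hs : 1 ≤ s) (hB : BdJ s m k) (θ κ : ℝ) (hθ0 : 0 < θ) (hκ : 0 < κ)
    (j : ℤ) :
    ∃ i0 : ℕ, ∀ i : ℕ, i0 ≤ i → ∃ S : Finset ℝ,
      (S.card : ℝ) ≤ ((2 : ℝ) ^ i) ^ (1 + 2 * (s : ℝ) - m - 2 * s * θ + k + κ) ∧
      BB k θ j i ⊆ ⋃ x ∈ S, Set.Icc x (x + ((2 : ℝ) ^ i) ^ (-(k : ℝ))) := by
  have hs0 : (0 : ℝ) < s := by exact_mod_cast hs
  set ε' : ℝ := κ / (8 * s) with hε'd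
  have hε' : 0 < ε' := by positivity
  obtain ⟨C, hC0, hC⟩ := hB (κ / 4) (by positivity)
  set K0 : ℝ := 1 + 2 * Real.pi * 2 ^ k with hK0
  have hK00 : 0 < K0 := by positivity
  obtain ⟨i1, h1⟩ := ev_log ε' hε' (K0 * (2 : ℝ) ^ θ)
  obtain ⟨i3, h3⟩ := ev_pow (κ / 2) (by positivity) (((s : ℝ) + 1) * (3 * C))
  refine ⟨i1 + i3, fun i hi => ?_⟩
  have g1 := h1 i (by omega)
  have g3 := h3 i (by omega)
  set X : ℝ := (2 : ℝ) ^ i with hX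
  have hX1 : (1 : ℝ) ≤ X := one_le_pow₀ (by norm_num)
  have hX0 : (0 : ℝ) < X := by positivity
  have hNX : (((2 ^ i : ℕ) : ℕ) : ℝ) = X := by push_cast; rfl
  set μ : ℝ := X ^ (θ - ε') with hμ
  have hμ0 : 0 < μ := by positivity
  set δ : ℝ := X ^ (-(k : ℝ)) with hδ
  have hδ0 : 0 < δ := by positivity
  have hδ1 : δ ≤ 1 := by
    rw [hδ]
    exact Real.rpow_le_one_of_one_le_of_nonpos hX1 (by simp)
  have hδk : δ = 1 / (((2 ^ i : ℕ) : ℕ) : ℝ) ^ k := by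
    rw [hNX, hδ, Real.rpow_neg hX0.le, Real.rpow_natCast, one_div]
  -- the maximal inequality and local constancy
  set F : Set ℝ := {t : ℝ | t ∈ Set.Icc ((j - 1 : ℤ) : ℝ) ((j + 2 : ℤ) : ℝ) ∧
    ∃ η : ℝ, μ ≤ ‖sm k (2 ^ i) t η‖} with hF
  have key2 : ∀ t ∈ BB k θ j i, ∀ t' : ℝ, |t' - t| ≤ δ → t' ∈ F := by
    rintro t ⟨ht1, M, hM1, hM2, ξ, hξ⟩ t' htt
    have htt' := abs_le.mp htt
    refine ⟨⟨by push_cast; linarith [ht1.1, htt'.1], by push_cast; linarith [ht1.2, htt'.2]⟩, ?_⟩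
    by_contra hcon
    push Not at hcon
    have h4 : ∀ m : ℕ, m ≤ 2 ^ i → ‖sm k m t' ξ‖ ≤ (4 + 4 * Real.log X) * μ := by
      intro m hm
      have h5 := Pool.Agent.TH181.MW.S_MAX_t k (2 ^ i) m t' μ (Nat.one_le_two_pow) hm
        (fun η => (hcon η).le) ξ
      rw [hNX] at h5
      exact h5
    have hlog0 : 0 ≤ Real.log X := Real.log_nonneg hX1
    have h5 := Pool.Agent.TH181.MW.shift_le k (2 ^ i) M t t' ξ ((4 + 4 * Real.log X) * μ)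
      (Nat.one_le_two_pow) hM1 (by positivity) (by rw [abs_sub_comm, ← hδk]; exact htt) h4
    have h6 : (X / 2) ^ θ ≤ (M : ℝ) ^ θ := by
      apply Real.rpow_le_rpow (by positivity) _ hθ0.le
      have : ((2 ^ i : ℕ) : ℝ) ≤ ((2 * M : ℕ) : ℝ) := by exact_mod_cast hM2
      rw [hNX] at this
      push_cast at this
      linarith
    have h7 : (X / 2) ^ θ = X ^ θ / (2 : ℝ) ^ θ := Real.div_rpow hX0.le (by norm_num) θ
    have h8 : K0 * ((4 + 4 * Real.log X) * μ) ≤ X ^ θ / (2 : ℝ) ^ θ := by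
      rw [le_div_iff₀ (by positivity)]
      have h9 : X ^ θ = X ^ ε' * μ := by
        rw [hμ, ← Real.rpow_add hX0]
        congr 1
        ring
      rw [h9]
      calc K0 * ((4 + 4 * Real.log X) * μ) * (2 : ℝ) ^ θ =
          (K0 * (2 : ℝ) ^ θ * (4 + 4 * Real.log X)) * μ := by ring
        _ ≤ X ^ ε' * μ := mul_le_mul_of_nonneg_right g1 hμ0.le
    have h9 : (M : ℝ) ^ θ < (M : ℝ) ^ θ := by
      calc (M : ℝ) ^ θ < ‖sm k M t ξ‖ := hξ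
        _ ≤ K0 * ((4 + 4 * Real.log X) * μ) := h5
        _ ≤ X ^ θ / (2 : ℝ) ^ θ := h8
        _ = (X / 2) ^ θ := h7.symm
        _ ≤ (M : ℝ) ^ θ := h6
    exact lt_irrefl _ h9
  -- the measure of F
  have h5 := Pool.Agent.TH181.MW.meas_le s k (2 ^ i) (j - 1) (j + 2) μ (by omega) hμ0
  rw [hNX] at h5
  have hJ := hC (2 ^ i) Nat.one_le_two_pow
  rw [hNX] at hJ
  set V : ℝ := ((s : ℝ) + 1) * (3 * C) * (X * X ^ (2 * (s : ℝ) - m + κ / 4) / μ ^ (2 * s)) with hV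
  have h6 : volume F ≤ ENNReal.ofReal V := by
    refine h5.trans (ENNReal.ofReal_le_ofReal ?_)
    rw [hV]
    have h7 : ((s : ℝ) * X + 1) * ((((j + 2 : ℤ) : ℝ) - ((j - 1 : ℤ) : ℝ)) * (J s k (2 ^ i) : ℝ)) ≤
        ((s : ℝ) + 1) * (3 * C) * (X * X ^ (2 * (s : ℝ) - m + κ / 4)) := by
      have a1 : (s : ℝ) * X + 1 ≤ ((s : ℝ) + 1) * X := by nlinarith
      have a2 : (((j + 2 : ℤ) : ℝ) - ((j - 1 : ℤ) : ℝ)) = 3 := by push_cast; ring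
      rw [a2]
      calc ((s : ℝ) * X + 1) * (3 * (J s k (2 ^ i) : ℝ)) ≤
          (((s : ℝ) + 1) * X) * (3 * (C * X ^ (2 * (s : ℝ) - m + κ / 4))) := by
            apply mul_le_mul a1 _ (by positivity) (by positivity)
            exact mul_le_mul_of_nonneg_left hJ (by norm_num)
        _ = _ := by ring
    calc _ ≤ ((s : ℝ) + 1) * (3 * C) * (X * X ^ (2 * (s : ℝ) - m + κ / 4)) / μ ^ (2 * s) :=
          div_le_div_of_nonneg_right h7 (by positivity)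
      _ = _ := by rw [mul_div_assoc]
  obtain ⟨S, hS1, hS2⟩ := Pool.Agent.TH181.MW.S_COV_t (BB k θ j i) F δ V (j : ℝ) ((j : ℝ) + 1) hδ0
    (by positivity) (fun t ht => ht.1) key2 h6
  refine ⟨S, hS1.trans ?_, hS2⟩
  have h9 : μ ^ (2 * s) = X ^ (2 * s * (θ - ε')) := by
    rw [hμ, ← Real.rpow_natCast, ← Real.rpow_mul hX0.le]
    congr 1
    push_cast; ring
  have h10 : X * X ^ (2 * (s : ℝ) - m + κ / 4) = X ^ (1 + (2 * (s : ℝ) - m + κ / 4)) := by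
    rw [Real.rpow_add hX0 1 (2 * (s : ℝ) - m + κ / 4), Real.rpow_one]
  rw [hV, h9, h10, hδ, ← Real.rpow_sub hX0, mul_div_assoc, ← Real.rpow_sub hX0]
  calc ((s : ℝ) + 1) * (3 * C) *
        X ^ (1 + (2 * (s : ℝ) - m + κ / 4) - 2 * s * (θ - ε') - -(k : ℝ))
      ≤ X ^ (κ / 2) * X ^ (1 + (2 * (s : ℝ) - m + κ / 4) - 2 * s * (θ - ε') - -(k : ℝ)) :=
        mul_le_mul_of_nonneg_right g3 (by positivity)
    _ = X ^ (1 + 2 * (s : ℝ) - m - 2 * s * θ + k + κ) := by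
        rw [← Real.rpow_add hX0]
        congr 1
        rw [hε'd]
        field_simp
        ring

/-- the inequality of `H_k(η)` for one `t`, one `ε` and one constant -/
def Holds (k : ℕ) (η ε C t : ℝ) : Prop :=
  ∀ N : ℕ, 2 ≤ N → ∀ ξ : ℝ, ∀ a q : ℕ, 1 ≤ a → a < q → q ≤ N → Nat.Coprime a q →
    |t - (a : ℝ) / (q : ℝ)| ≤ 1 / (q : ℝ) ^ 2 →
    ‖sm k N t ξ‖ ≤ C * (N : ℝ) ^ (1 + ε) *
      (1 / (q : ℝ) + 1 / (N : ℝ) + (q : ℝ) / (N : ℝ) ^ k) ^ η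

theorem main_ge (k N q : ℕ) (η ε : ℝ) (hη : 0 ≤ η) (hN : 1 ≤ N) :
    (N : ℝ) ^ (1 - η + ε) ≤ (N : ℝ) ^ (1 + ε) *
      (1 / (q : ℝ) + 1 / (N : ℝ) + (q : ℝ) / (N : ℝ) ^ k) ^ η := by
  have hN' : (1 : ℝ) ≤ (N : ℝ) := by exact_mod_cast hN
  have h1 : (N : ℝ) ^ (1 - η + ε) = (N : ℝ) ^ (1 + ε) * (1 / (N : ℝ)) ^ η := by
    rw [Real.div_rpow (by norm_num) (by positivity), Real.one_rpow, mul_one_div,
      ← Real.rpow_sub (by positivity)]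
    congr 1
    ring
  rw [h1]
  apply mul_le_mul_of_nonneg_left _ (by positivity)
  apply Real.rpow_le_rpow (by positivity) _ hη
  have h2 : 0 ≤ 1 / (q : ℝ) + (q : ℝ) / (N : ℝ) ^ k := by positivity
  linarith

theorem bad_sub (k : ℕ) (η ε : ℝ) (hη : 0 ≤ η) (hη1 : η ≤ 1) (hε : 0 < ε) (t : ℝ)
    (ht : ¬ ∃ C : ℝ, Holds k η ε C t) :
    ∀ i1 : ℕ, ∃ i : ℕ, i1 ≤ i ∧ t ∈ BB k (1 - η + ε) ⌊t⌋ i := by
  intro i1
  by_contra hcon
  push Not at hcon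
  apply ht
  refine ⟨(2 : ℝ) ^ i1 + 1, ?_⟩
  intro N hN ξ a q _ _ _ _ _
  have hN' : (1 : ℝ) ≤ (N : ℝ) := by
    have : 1 ≤ N := by omega
    exact_mod_cast this
  set R : ℝ := (N : ℝ) ^ (1 + ε) *
      (1 / (q : ℝ) + 1 / (N : ℝ) + (q : ℝ) / (N : ℝ) ^ k) ^ η with hR
  have h1 : (N : ℝ) ^ (1 - η + ε) ≤ R := main_ge k N q η ε hη (by omega)
  have h2 : 1 ≤ (N : ℝ) ^ (1 - η + ε) := Real.one_le_rpow hN' (by linarith)
  have h3 : ((2 : ℝ) ^ i1 + 1) * (N : ℝ) ^ (1 + ε) *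
      (1 / (q : ℝ) + 1 / (N : ℝ) + (q : ℝ) / (N : ℝ) ^ k) ^ η = ((2 : ℝ) ^ i1 + 1) * R := by
    rw [hR]; ring
  rw [h3]
  have hp : (0 : ℝ) < (2 : ℝ) ^ i1 := by positivity
  rcases le_total N (2 ^ i1) with hN2 | hN2
  · have h4 : (N : ℝ) ≤ (2 : ℝ) ^ i1 := by exact_mod_cast hN2
    refine (sm_le k N t ξ).trans ?_
    nlinarith
  · obtain ⟨i, hi1, hi2⟩ : ∃ i : ℕ, N ≤ 2 ^ i ∧ 2 ^ i ≤ 2 * N := by
      refine ⟨Nat.log 2 N + 1, (Nat.lt_pow_succ_log_self (by norm_num) N).le, ?_⟩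
      have := Nat.pow_log_le_self 2 (show N ≠ 0 by omega)
      rw [pow_succ]
      omega
    have hii : i1 ≤ i := by
      have : 2 ^ i1 ≤ 2 ^ i := hN2.trans hi1
      exact (Nat.pow_le_pow_iff_right (by norm_num)).mp this
    have h5 := hcon i hii
    have h6 : ‖sm k N t ξ‖ ≤ (N : ℝ) ^ (1 - η + ε) := by
      by_contra h7
      push Not at h7
      apply h5
      exact ⟨⟨Int.floor_le t, (Int.lt_floor_add_one t).le⟩, N, hi1, hi2, ξ, h7⟩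
    nlinarith

/-- the dimension bound from a bound for the number of solutions -/
theorem dim_gen (s m k : ℕ) (hs : 1 ≤ s) (hk : 1 ≤ k) (hB : BdJ s m k) (η ε : ℝ) (hη : 0 ≤ η)
    (hη1 : η ≤ 1) (hε : 0 < ε) :
    dimH {t : ℝ | ¬ ∃ C : ℝ, Holds k η ε C t} ≤
      ENNReal.ofReal (1 - ((m : ℝ) - 1 - 2 * s * (η - ε)) / k) := by
  have hk0 : (0 : ℝ) < k := by exact_mod_cast hk
  have hsub : {t : ℝ | ¬ ∃ C : ℝ, Holds k η ε C t} ⊆
      ⋃ j : ℤ, {t : ℝ | ∀ i1 : ℕ, ∃ i : ℕ, i1 ≤ i ∧ t ∈ BB k (1 - η + ε) j i} := by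
    intro t ht
    rw [Set.mem_iUnion]
    exact ⟨⌊t⌋, bad_sub k η ε hη hη1 hε t ht⟩
  refine (dimH_mono hsub).trans ?_
  rw [dimH_iUnion]
  apply iSup_le
  intro j
  set D0 : ℝ := 1 - ((m : ℝ) - 1 - 2 * s * (η - ε)) / k with hD0
  apply ENNReal.le_of_forall_pos_le_add
  intro r hr _
  have hr0 : (0 : ℝ) < r := hr
  set D : ℝ := max D0 0 + r with hD
  have hDpos : 0 < D := by
    have := le_max_right D0 0
    rw [hD]; linarith
  have hDD : D0 + r ≤ D := by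
    have := le_max_left D0 0
    rw [hD]; linarith
  set κ : ℝ := k * r / 2 with hκ
  have hκ0 : 0 < κ := by positivity
  have h1 := Pool.Agent.TH181.MW.S_DIMG_t
    (1 + 2 * (s : ℝ) - m - 2 * s * (1 - η + ε) + k + κ) k D (BB k (1 - η + ε) j) hk0 hDpos ?_
    (cover s m k hs hB (1 - η + ε) κ (by linarith) hκ0 j)
  · refine h1.trans ?_
    rw [hD]
    refine (ENNReal.ofReal_add_le).trans ?_
    apply add_le_add
    · rw [ENNReal.ofReal_max, ENNReal.ofReal_zero]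
      simp
    · rw [ENNReal.ofReal_coe_nnreal]
  · have h2 : (k : ℝ) * (D0 + r) ≤ k * D := mul_le_mul_of_nonneg_left hDD hk0.le
    have h3 : (k : ℝ) * D0 = k - ((m : ℝ) - 1 - 2 * s * (η - ε)) := by
      rw [hD0]
      field_simp
    have h4 : (1 + 2 * (s : ℝ) - m - 2 * s * (1 - η + ε) + k + κ) = k * D0 + κ := by
      rw [h3]; ring
    rw [h4]
    have h5 : κ < k * r := by
      rw [hκ]
      have : 0 < k * (r : ℝ) := by positivity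
      linarith
    nlinarith

end Pool.Agent.N102.MW
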