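import Pool.Agent.N102.MW.Dim

/-! # The exceptional leading coefficients: final statements -/

set_option autoImplicit false

open Finset MeasureTheory

namespace Pool.Agent.N102.MW

/-- the dimension bound by Hua's recursion -/
theorem dim_hua (k i : ℕ) (hk : 3 ≤ k) (hi : 1 ≤ i) (hik : i < k) (η ε : ℝ) (hη : 0 ≤ η)
    (hη1 : η ≤ 1) (hε : 0 < ε) :
    dimH {t : ℝ | ¬ ∃ C : ℝ, Holds k η ε C t} ≤
      ENNReal.ofReal (1 - ((i : ℝ) + 1 - (2 ^ (i + 1) + 4) * (η - ε)) / k) := by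
  have h := dim_gen (2 + 2 ^ i) (i + 2) k (Nat.le_add_right_of_le (by norm_num)) (by omega)
    (hua k i hi hik hk) η ε hη hη1 hε
  refine h.trans (le_of_eq ?_)
  congr 3
  push_cast
  ring

/-- the dimension bound for cubic sums -/
theorem dim_cub (η ε : ℝ) (hη : 0 ≤ η) (hη1 : η ≤ 1) (hε : 0 < ε) :
    dimH {t : ℝ | ¬ ∃ C : ℝ, Holds 3 η ε C t} ≤ ENNReal.ofReal (1 / 3 + 2 * (η - ε)) := by
  have h := dim_gen 3 3 3 (by norm_num) (by norm_num) cubic η ε hη hη1 hε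
  refine h.trans (le_of_eq ?_)
  congr 1
  push_cast
  ring

theorem union_sub (k : ℕ) (η : ℝ) :
    {t : ℝ | ¬ ∀ ε : ℝ, 0 < ε → ∃ C : ℝ, Holds k η ε C t} ⊆
      ⋃ n : ℕ, {t : ℝ | ¬ ∃ C : ℝ, Holds k η (1 / ((n : ℝ) + 1)) C t} := by
  intro t ht
  simp only [Set.mem_ofPred_eq, not_forall] at ht
  obtain ⟨ε, hε, h⟩ := ht
  obtain ⟨n, hn⟩ := exists_nat_one_div_lt hε
  rw [Set.mem_iUnion]
  refine ⟨n, fun hC => h ?_⟩
  obtain ⟨C, hC⟩ := hC
  refine ⟨|C|, fun N hN ξ a q h1 h2 h3 h4 h5 => (hC N hN ξ a q h1 h2 h3 h4 h5).trans ?_⟩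
  have hN' : (1 : ℝ) ≤ (N : ℝ) := by
    have : 1 ≤ N := by omega
    exact_mod_cast this
  apply mul_le_mul_of_nonneg_right _ (by positivity)
  calc C * (N : ℝ) ^ (1 + 1 / ((n : ℝ) + 1)) ≤ |C| * (N : ℝ) ^ (1 + 1 / ((n : ℝ) + 1)) :=
        mul_le_mul_of_nonneg_right (le_abs_self C) (by positivity)
    _ ≤ |C| * (N : ℝ) ^ (1 + ε) := by
        apply mul_le_mul_of_nonneg_left _ (abs_nonneg C)
        exact Real.rpow_le_rpow_of_exponent_le hN' (by linarith)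

/-- all `ε` together -/
theorem dim_all (k i : ℕ) (hk : 3 ≤ k) (hi : 1 ≤ i) (hik : i < k) (η : ℝ) (hη : 0 ≤ η)
    (hη1 : η ≤ 1) :
    dimH {t : ℝ | ¬ ∀ ε : ℝ, 0 < ε → ∃ C : ℝ, Holds k η ε C t} ≤
      ENNReal.ofReal (1 - ((i : ℝ) + 1 - (2 ^ (i + 1) + 4) * η) / k) := by
  refine (dimH_mono (union_sub k η)).trans ?_
  rw [dimH_iUnion]
  apply iSup_le
  intro n
  refine (dim_hua k i hk hi hik η _ hη hη1 (by positivity)).trans ?_
  apply ENNReal.ofReal_le_ofReal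
  have hk0 : (0 : ℝ) < k := by
    have : 0 < k := by omega
    exact_mod_cast this
  have h1 : (2 ^ (i + 1) + 4 : ℝ) * (η - 1 / ((n : ℝ) + 1)) ≤ (2 ^ (i + 1) + 4) * η := by
    apply mul_le_mul_of_nonneg_left _ (by positivity)
    have : (0 : ℝ) < 1 / ((n : ℝ) + 1) := by positivity
    linarith
  have h2 : ((i : ℝ) + 1 - (2 ^ (i + 1) + 4) * η) / k ≤
      ((i : ℝ) + 1 - (2 ^ (i + 1) + 4) * (η - 1 / ((n : ℝ) + 1))) / k := by
    apply div_le_div_of_nonneg_right _ hk0.le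
    linarith
  linarith

theorem null_of (k : ℕ) (η ε : ℝ) (D : ℝ) (hD : D < 1)
    (h : dimH {t : ℝ | ¬ ∃ C : ℝ, Holds k η ε C t} ≤ ENNReal.ofReal D) :
    volume {t : ℝ | ¬ ∃ C : ℝ, Holds k η ε C t} = 0 := by
  have h1 : dimH {t : ℝ | ¬ ∃ C : ℝ, Holds k η ε C t} < ((1 : NNReal) : ENNReal) := by
    refine h.trans_lt ?_
    rw [ENNReal.coe_one, ← ENNReal.ofReal_one]
    exact (ENNReal.ofReal_lt_ofReal_iff (by norm_num)).2 hD
  refine measure_zero_of_dimH_lt ?_ h1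
  rw [NNReal.coe_one, MeasureTheory.hausdorffMeasure_real]

/-- almost all leading coefficients -/
theorem ae_all (k : ℕ) (hk : 3 ≤ k) :
    ∀ᵐ t : ℝ, ∀ ε : ℝ, 0 < ε → ∃ C : ℝ, Holds k (1 / (k : ℝ)) ε C t := by
  have hk0 : (0 : ℝ) < k := by
    have : 0 < k := by omega
    exact_mod_cast this
  have hk1 : (1 : ℝ) / k ≤ 1 := by
    rw [div_le_one hk0]
    have : 1 ≤ k := by omega
    exact_mod_cast this
  have h0 : (0 : ℝ) ≤ 1 / k := by positivity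
  rw [ae_iff]
  refine measure_mono_null (union_sub k (1 / (k : ℝ))) ?_
  rw [measure_iUnion_null_iff]
  intro n
  have hn : (0 : ℝ) < 1 / ((n : ℝ) + 1) := by positivity
  rcases Nat.lt_or_ge k 4 with h4 | h4
  · have : k = 3 := by omega
    subst this
    refine null_of 3 _ _ _ ?_ (dim_cub _ _ h0 hk1 hn)
    push_cast
    linarith
  · refine null_of k _ _ _ ?_ (dim_hua k 2 hk (by norm_num) (by omega) _ _ h0 hk1 hn)
    have h5 : (4 : ℝ) ≤ k := by exact_mod_cast h4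
    have h6 : (1 : ℝ) / k ≤ 1 / 4 := one_div_le_one_div_of_le (by norm_num) h5
    have h7 : 0 < (((2 : ℕ) : ℝ) + 1 - (2 ^ (2 + 1) + 4) * (1 / (k : ℝ) - 1 / ((n : ℝ) + 1))) / k := by
      apply div_pos _ hk0
      push_cast
      linarith
    linarith

end Pool.Agent.N102.MW
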