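import Pool.Agent.TH181.MW.HuaB
import Pool.Agent.TH181.MW.Max

/-! # Hua's recursion for the system of degrees `1, k` -/

set_option autoImplicit false

open Finset

namespace Pool.Agent.N102.MW

open Pool.Agent.W928.MW (e sm e_add e_norm)
open Pool.Agent.TH181.MW (tup J LS AA ph TT Lam)

/-- the difference of the sums of `k`-th powers -/
def dl (s k : ℕ) (z : (Fin s → ℕ) × (Fin s → ℕ)) : ℤ :=
  ((∑ i, z.1 i ^ k : ℕ) : ℤ) - ((∑ i, z.2 i ^ k : ℕ) : ℤ)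

/-- the difference of the sums -/
def l1 (s : ℕ) (z : (Fin s → ℕ) × (Fin s → ℕ)) : ℤ :=
  ((∑ i, z.1 i : ℕ) : ℤ) - ((∑ i, z.2 i : ℕ) : ℤ)

/-- pairs of tuples -/
def T2 (s N : ℕ) : Finset ((Fin s → ℕ) × (Fin s → ℕ)) := (tup s N) ×ˢ (tup s N)

/-- pairs of tuples with equal sums -/
def E2 (s N : ℕ) : Finset ((Fin s → ℕ) × (Fin s → ℕ)) := (T2 s N).filter (fun z => l1 s z = 0)

/-- number of pairs with equal sums and given difference of the sums of powers -/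
def cnt (s k N : ℕ) (m : ℤ) : ℕ := ((E2 s N).filter (fun z => dl s k z + m = 0)).card

theorem cnt_zero (s k N : ℕ) : cnt s k N 0 = J s k N := by
  unfold cnt J E2 T2 dl l1
  rw [Finset.filter_filter]
  congr 1
  apply Finset.filter_congr
  intro z _
  constructor
  · rintro ⟨h1, h2⟩
    exact ⟨by exact_mod_cast sub_eq_zero.1 h1, by
      rw [add_zero] at h2
      exact_mod_cast sub_eq_zero.1 h2⟩
  · rintro ⟨h1, h2⟩
    rw [h1, h2]
    simp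

theorem orthM (M : ℕ) (n : ℤ) (hn : n.natAbs < M) :
    ∑ a ∈ range M, e ((a : ℝ) / M * n) = if n = 0 then (M : ℂ) else 0 := by
  obtain ⟨x, y, hx, hy, hxy⟩ : ∃ x y : ℕ, x ∈ Icc 1 M ∧ y ∈ Icc 1 M ∧ n = (x : ℤ) - y := by
    rcases le_total 0 n with h | h
    · refine ⟨n.toNat + 1, 1, ?_, ?_, ?_⟩
      · rw [Finset.mem_Icc]; omega
      · rw [Finset.mem_Icc]; omega
      · push_cast
        rw [Int.toNat_of_nonneg h]; ring
    · refine ⟨1, (-n).toNat + 1, ?_, ?_, ?_⟩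
      · rw [Finset.mem_Icc]; omega
      · rw [Finset.mem_Icc]; omega
      · push_cast
        rw [Int.toNat_of_nonneg (by omega)]; ring
  have h := Pool.Agent.TH181.MW.orth M (by omega) x y hx hy
  have h2 : ∀ a ∈ range M, e ((a : ℝ) / M * n) = e (((x : ℝ) - y) / M * a) := by
    intro a _
    rw [hxy]
    congr 1
    push_cast
    ring
  rw [Finset.sum_congr rfl h2, h]
  by_cases hc : y = x
  · rw [if_pos hc, if_pos (by rw [hxy, hc]; ring)]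
  · rw [if_neg hc, if_neg (by rw [hxy]; omega)]

theorem sm_pow' (s k N : ℕ) (t ξ : ℝ) :
    sm k N t ξ ^ s = ∑ z ∈ tup s N, e (t * ((∑ i, z i ^ k : ℕ) : ℝ) + ξ * ((∑ i, z i : ℕ) : ℝ)) := by
  unfold Pool.Agent.W928.MW.sm Pool.Agent.TH181.MW.tup
  rw [Finset.sum_pow']
  apply Finset.sum_congr rfl
  intro z _
  rw [← Pool.Agent.TH181.MW.e_sum]
  congr 1
  push_cast
  rw [Finset.mul_sum, Finset.mul_sum, ← Finset.sum_add_distrib]

theorem sm_abs (s k N : ℕ) (t ξ : ℝ) :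
    ((‖sm k N t ξ‖ ^ (2 * s) : ℝ) : ℂ) = ∑ z ∈ T2 s N, e (t * (dl s k z : ℝ) + ξ * (l1 s z : ℝ)) := by
  have h1 : ‖sm k N t ξ‖ ^ (2 * s) = ‖sm k N t ξ ^ s‖ ^ 2 := by
    rw [norm_pow, ← pow_mul, mul_comm]
  have h2 : ((‖sm k N t ξ ^ s‖ ^ 2 : ℝ) : ℂ) = (sm k N t ξ ^ s) * (starRingEnd ℂ) (sm k N t ξ ^ s) := by
    rw [Complex.mul_conj, Complex.normSq_eq_norm_sq]
  rw [h1, h2, sm_pow', map_sum, Finset.sum_mul_sum, T2, Finset.sum_product]
  apply Finset.sum_congr rfl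
  intro x _
  apply Finset.sum_congr rfl
  intro y _
  rw [Pool.Agent.TH181.MW.e_conj, ← e_add]
  congr 1
  unfold dl l1
  push_cast
  ring

/-- the weighted average -/
theorem avg (s k N M : ℕ) (m : ℤ) (h1 : ∀ z ∈ T2 s N, (dl s k z + m).natAbs < M)
    (h2 : ∀ z ∈ T2 s N, (l1 s z).natAbs < M) :
    ∑ a ∈ range M, ∑ b ∈ range M, ((‖sm k N ((a : ℝ) / M) ((b : ℝ) / M)‖ ^ (2 * s) : ℝ) : ℂ) *
      e ((a : ℝ) / M * m) = (M : ℂ) ^ 2 * (cnt s k N m : ℂ) := by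
  have h3 : ∀ a ∈ range M, ∀ b ∈ range M,
      ((‖sm k N ((a : ℝ) / M) ((b : ℝ) / M)‖ ^ (2 * s) : ℝ) : ℂ) * e ((a : ℝ) / M * m) =
      ∑ z ∈ T2 s N, e ((a : ℝ) / M * ((dl s k z + m : ℤ) : ℝ)) * e ((b : ℝ) / M * (l1 s z : ℝ)) := by
    intro a _ b _
    rw [sm_abs, Finset.sum_mul]
    apply Finset.sum_congr rfl
    intro z _
    rw [← e_add, ← e_add]
    congr 1
    push_cast
    ring
  have h4 : ∑ a ∈ range M, ∑ b ∈ range M, ((‖sm k N ((a : ℝ) / M) ((b : ℝ) / M)‖ ^ (2 * s) : ℝ) : ℂ) *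
      e ((a : ℝ) / M * m) = ∑ z ∈ T2 s N, (∑ a ∈ range M, e ((a : ℝ) / M * ((dl s k z + m : ℤ) : ℝ))) *
        ∑ b ∈ range M, e ((b : ℝ) / M * (l1 s z : ℝ)) := by
    rw [Finset.sum_congr rfl (fun a ha => Finset.sum_congr rfl (h3 a ha))]
    have : ∀ z ∈ T2 s N, (∑ a ∈ range M, e ((a : ℝ) / M * ((dl s k z + m : ℤ) : ℝ))) *
        ∑ b ∈ range M, e ((b : ℝ) / M * (l1 s z : ℝ)) = ∑ a ∈ range M, ∑ b ∈ range M,
          e ((a : ℝ) / M * ((dl s k z + m : ℤ) : ℝ)) * e ((b : ℝ) / M * (l1 s z : ℝ)) := by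
      intro z _
      rw [Finset.sum_mul_sum]
    rw [Finset.sum_congr rfl this]
    rw [Finset.sum_comm (s := T2 s N)]
    apply Finset.sum_congr rfl
    intro a _
    rw [Finset.sum_comm (s := T2 s N)]
  rw [h4]
  have h6 : ∀ z ∈ T2 s N, (∑ a ∈ range M, e ((a : ℝ) / M * ((dl s k z + m : ℤ) : ℝ))) *
        ∑ b ∈ range M, e ((b : ℝ) / M * (l1 s z : ℝ)) =
        if l1 s z = 0 ∧ dl s k z + m = 0 then (M : ℂ) ^ 2 else 0 := by
    intro z hz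
    rw [orthM M _ (h1 z hz), orthM M _ (h2 z hz)]
    by_cases c1 : dl s k z + m = 0 <;> by_cases c2 : l1 s z = 0 <;> simp [c1, c2, sq]
  rw [Finset.sum_congr rfl h6, ← Finset.sum_filter, Finset.sum_const, nsmul_eq_mul, mul_comm]
  congr 2
  unfold cnt E2
  rw [Finset.filter_filter]

end Pool.Agent.N102.MW
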