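import Pool.Agent.N102.MW.Hua

/-! # Hua's recursion for the system of degrees `1, k`: the recursion -/

set_option autoImplicit false

open Finset

namespace Pool.Agent.N102.MW

open Pool.Agent.W928.MW (e sm e_add e_norm)
open Pool.Agent.TH181.MW (tup J LS AA ph TT Lam)

/-- the iterated difference of the `k`-th power -/
def phk (k : ℕ) (w : Σ _ : List ℤ, ℤ) : ℤ := ph (fun n => n ^ k) w.1 w.2

theorem sum_TT (k N j : ℕ) (hj : 1 ≤ j) (t ξ : ℝ) :
    ∑ l ∈ LS (Icc (-(N : ℤ)) N) (j + 1), TT k N t ξ l =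
      ∑ w ∈ Lam N (j + 1), e (t * (phk k w : ℝ)) := by
  unfold Pool.Agent.TH181.MW.Lam
  rw [Finset.sum_sigma]
  apply Finset.sum_congr rfl
  intro l hl
  unfold Pool.Agent.TH181.MW.TT
  apply Finset.sum_congr rfl
  intro n _
  have h1 : ph (fun n => n) l n = 0 := by
    apply Pool.Agent.TH181.MW.ph_id
    have := ((Pool.Agent.TH181.MW.mem_LS _ _ _).1 hl).1
    omega
  rw [h1]
  congr 1
  simp [phk]

theorem exists_bd {α : Type} (S : Finset α) (f : α → ℕ) : ∃ M : ℕ, ∀ x ∈ S, f x < M :=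
  ⟨1 + ∑ x ∈ S, f x, fun x hx => by
    have := Finset.single_le_sum (f := f) (fun _ _ => Nat.zero_le _) hx
    omega⟩

theorem main_ineq (s k N j : ℕ) (hj : 1 ≤ j) :
    (J (s + 2 ^ j) k N : ℝ) ≤ (2 * (N : ℝ) + 1) ^ (2 ^ (j + 1) - (j + 1) - 1) *
      ((∑ w ∈ Lam N (j + 1), cnt s k N (phk k w) : ℕ) : ℝ) := by
  obtain ⟨M1, hM1⟩ := exists_bd (T2 (s + 2 ^ j) N) (fun z => (dl (s + 2 ^ j) k z).natAbs)
  obtain ⟨M2, hM2⟩ := exists_bd (T2 (s + 2 ^ j) N) (fun z => (l1 (s + 2 ^ j) z).natAbs)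
  obtain ⟨M3, hM3⟩ := exists_bd (T2 s N ×ˢ Lam N (j + 1))
    (fun x => (dl s k x.1 + phk k x.2).natAbs)
  obtain ⟨M4, hM4⟩ := exists_bd (T2 s N) (fun z => (l1 s z).natAbs)
  obtain ⟨M, hM⟩ : ∃ M : ℕ, M = M1 + M2 + M3 + M4 + 1 := ⟨_, rfl⟩
  have hM0 : (0 : ℝ) < M := by
    rw [hM]; positivity
  have hA := avg (s + 2 ^ j) k N M 0 (fun z hz => by
      have := hM1 z hz
      rw [add_zero]; omega) (fun z hz => by
      have := hM2 z hz
      omega)
  rw [cnt_zero] at hA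
  have hA' : (M : ℝ) ^ 2 * (J (s + 2 ^ j) k N : ℝ) =
      ∑ a ∈ range M, ∑ b ∈ range M, ‖sm k N ((a : ℝ) / M) ((b : ℝ) / M)‖ ^ (2 * (s + 2 ^ j)) := by
    have h0 : ∀ a ∈ range M, e ((a : ℝ) / M * ((0 : ℤ) : ℝ)) = 1 := by
      intro a _
      rw [Int.cast_zero, mul_zero]
      exact Pool.Agent.TH181.MW.e_zero
    have h1 : ∑ a ∈ range M, ∑ b ∈ range M,
        ((‖sm k N ((a : ℝ) / M) ((b : ℝ) / M)‖ ^ (2 * (s + 2 ^ j)) : ℝ) : ℂ) *
          e ((a : ℝ) / M * ((0 : ℤ) : ℝ)) = ∑ a ∈ range M, ∑ b ∈ range M,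
        ((‖sm k N ((a : ℝ) / M) ((b : ℝ) / M)‖ ^ (2 * (s + 2 ^ j)) : ℝ) : ℂ) := by
      apply Finset.sum_congr rfl
      intro a ha
      apply Finset.sum_congr rfl
      intro b _
      rw [h0 a ha, mul_one]
    rw [h1] at hA
    have h2 : ((((M : ℝ) ^ 2 * (J (s + 2 ^ j) k N : ℝ) : ℝ)) : ℂ) =
        ((∑ a ∈ range M, ∑ b ∈ range M,
          ‖sm k N ((a : ℝ) / M) ((b : ℝ) / M)‖ ^ (2 * (s + 2 ^ j)) : ℝ) : ℂ) := by
      push_cast
      push_cast at hA
      exact hA.symm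
    exact_mod_cast h2
  set c : ℝ := (2 * (N : ℝ) + 1) ^ (2 ^ (j + 1) - (j + 1) - 1) with hc
  have hc0 : 0 ≤ c := by positivity
  have hB : ∀ a ∈ range M, ∀ b ∈ range M,
      ‖sm k N ((a : ℝ) / M) ((b : ℝ) / M)‖ ^ (2 * (s + 2 ^ j)) ≤
      c * (((‖sm k N ((a : ℝ) / M) ((b : ℝ) / M)‖ ^ (2 * s) : ℝ) : ℂ) *
        ∑ w ∈ Lam N (j + 1), e ((a : ℝ) / M * (phk k w : ℝ))).re := by
    intro a _ b _
    have h1 := Pool.Agent.TH181.MW.weyl' k N j ((a : ℝ) / M) ((b : ℝ) / M)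
    rw [sum_TT k N j hj, ← hc] at h1
    rw [Complex.re_ofReal_mul]
    have h2 : 2 * (s + 2 ^ j) = 2 * s + 2 ^ (j + 1) := by
      rw [pow_succ]; ring
    rw [h2, pow_add]
    calc _ ≤ ‖sm k N ((a : ℝ) / M) ((b : ℝ) / M)‖ ^ (2 * s) *
          (c * (∑ w ∈ Lam N (j + 1), e ((a : ℝ) / M * (phk k w : ℝ))).re) :=
          mul_le_mul_of_nonneg_left h1 (by positivity)
      _ = _ := by ring
  have hC : ∑ a ∈ range M, ∑ b ∈ range M,
      ((‖sm k N ((a : ℝ) / M) ((b : ℝ) / M)‖ ^ (2 * s) : ℝ) : ℂ) *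
        ∑ w ∈ Lam N (j + 1), e ((a : ℝ) / M * (phk k w : ℝ)) =
      ((((M : ℝ) ^ 2 * ((∑ w ∈ Lam N (j + 1), cnt s k N (phk k w) : ℕ) : ℝ) : ℝ)) : ℂ) := by
    have h1 : ∑ a ∈ range M, ∑ b ∈ range M,
        ((‖sm k N ((a : ℝ) / M) ((b : ℝ) / M)‖ ^ (2 * s) : ℝ) : ℂ) *
        ∑ w ∈ Lam N (j + 1), e ((a : ℝ) / M * (phk k w : ℝ)) =
        ∑ w ∈ Lam N (j + 1), ∑ a ∈ range M, ∑ b ∈ range M,
        ((‖sm k N ((a : ℝ) / M) ((b : ℝ) / M)‖ ^ (2 * s) : ℝ) : ℂ) *
          e ((a : ℝ) / M * (phk k w : ℝ)) := by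
      rw [Finset.sum_comm (s := Lam N (j + 1))]
      apply Finset.sum_congr rfl
      intro a _
      rw [Finset.sum_comm (s := Lam N (j + 1))]
      apply Finset.sum_congr rfl
      intro b _
      rw [Finset.mul_sum]
    rw [h1]
    have h2 : ∀ w ∈ Lam N (j + 1), ∑ a ∈ range M, ∑ b ∈ range M,
        ((‖sm k N ((a : ℝ) / M) ((b : ℝ) / M)‖ ^ (2 * s) : ℝ) : ℂ) *
          e ((a : ℝ) / M * (phk k w : ℝ)) = (M : ℂ) ^ 2 * (cnt s k N (phk k w) : ℂ) := by
      intro w hw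
      apply avg
      · intro z hz
        have := hM3 (z, w) (Finset.mem_product.2 ⟨hz, hw⟩)
        simp only at this
        omega
      · intro z hz
        have := hM4 z hz
        omega
    rw [Finset.sum_congr rfl h2, ← Finset.mul_sum]
    push_cast
    rfl
  have hD : (M : ℝ) ^ 2 * (J (s + 2 ^ j) k N : ℝ) ≤
      (M : ℝ) ^ 2 * (c * ((∑ w ∈ Lam N (j + 1), cnt s k N (phk k w) : ℕ) : ℝ)) := by
    rw [hA']
    refine (Finset.sum_le_sum fun a ha => Finset.sum_le_sum fun b hb => hB a ha b hb).trans ?_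
    have h1 : ∑ a ∈ range M, ∑ b ∈ range M,
        c * (((‖sm k N ((a : ℝ) / M) ((b : ℝ) / M)‖ ^ (2 * s) : ℝ) : ℂ) *
        ∑ w ∈ Lam N (j + 1), e ((a : ℝ) / M * (phk k w : ℝ))).re =
        c * (∑ a ∈ range M, ∑ b ∈ range M,
        ((‖sm k N ((a : ℝ) / M) ((b : ℝ) / M)‖ ^ (2 * s) : ℝ) : ℂ) *
        ∑ w ∈ Lam N (j + 1), e ((a : ℝ) / M * (phk k w : ℝ))).re := by
      rw [Complex.re_sum, Finset.mul_sum]
      apply Finset.sum_congr rfl
      intro a _
      rw [Complex.re_sum, Finset.mul_sum]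
    rw [h1, hC, Complex.ofReal_re]
    refine le_of_eq ?_
    ring
  exact le_of_mul_le_mul_left hD (by positivity)

theorem sum_cnt (s k N j D : ℕ) (hjk : j + 1 < k)
    (hD : ∀ z ∈ E2 s N, dl s k z ≠ 0 → (dl s k z).natAbs.divisors.card ≤ D) :
    ∑ w ∈ Lam N (j + 1), cnt s k N (phk k w) ≤
      ((j + 1 + k) * (2 * N + 1) ^ (j + 1)) * J s k N + (E2 s N).card * ((2 * D) ^ (j + 1) * k) := by
  classical
  rw [← Finset.sum_filter_add_sum_filter_not (Lam N (j + 1)) (fun w => phk k w = 0)]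
  apply Nat.add_le_add
  · have h1 : ∑ w ∈ (Lam N (j + 1)).filter (fun w => phk k w = 0), cnt s k N (phk k w) =
        ((Lam N (j + 1)).filter (fun w => phk k w = 0)).card * J s k N := by
      rw [Finset.card_eq_sum_ones, Finset.sum_mul]
      apply Finset.sum_congr rfl
      intro w hw
      rw [(Finset.mem_filter.1 hw).2, cnt_zero, one_mul]
    rw [h1]
    exact Nat.mul_le_mul_right _ (Pool.Agent.TH181.MW.Lam_zero k N (j + 1) hjk)
  · have h1 : ∑ w ∈ (Lam N (j + 1)).filter (fun w => ¬ phk k w = 0), cnt s k N (phk k w) =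
        ∑ z ∈ E2 s N, (((Lam N (j + 1)).filter (fun w => ¬ phk k w = 0)).filter
          (fun w => dl s k z + phk k w = 0)).card := by
      unfold cnt
      simp only [Finset.card_eq_sum_ones, Finset.sum_filter]
      conv_rhs => rw [Finset.sum_comm]
      apply Finset.sum_congr rfl
      intro w _
      by_cases hw : phk k w = 0
      · simp [hw]
      · simp [hw]
    rw [h1]
    refine (Finset.sum_le_sum (g := fun _ => (2 * D) ^ (j + 1) * k) ?_).trans (le_of_eq ?_)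
    · intro z hz
      rcases eq_or_ne (dl s k z) 0 with h0 | h0
      · have : ((Lam N (j + 1)).filter (fun w => ¬ phk k w = 0)).filter
            (fun w => dl s k z + phk k w = 0) = ∅ := by
          rw [Finset.filter_eq_empty_iff]
          intro w hw h
          rw [h0, zero_add] at h
          exact (Finset.mem_filter.1 hw).2 h
        rw [this, Finset.card_empty]
        exact Nat.zero_le _
      · have h2 := Pool.Agent.TH181.MW.Lam_nonzero k N (j + 1) D hjk (-(dl s k z)) (neg_ne_zero.2 h0)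
          (by rw [Int.natAbs_neg]; exact hD z hz h0)
        refine le_trans (Finset.card_le_card ?_) h2
        intro w hw
        rw [Finset.mem_filter, Finset.mem_filter] at hw
        rw [Finset.mem_filter]
        refine ⟨hw.1.1, ?_⟩
        have := hw.2
        unfold phk at this
        linarith
    · rw [Finset.sum_const, smul_eq_mul]

theorem tup_card (s N : ℕ) : (tup s N).card = N ^ s := by
  unfold Pool.Agent.TH181.MW.tup
  rw [Fintype.card_piFinset]
  simp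

theorem fib_le (s N c : ℕ) : ((tup (s + 1) N).filter (fun y => ∑ i, y i = c)).card ≤ N ^ s := by
  classical
  rw [← tup_card]
  apply Finset.card_le_card_of_injOn (fun y => Fin.tail y)
  · intro y hy
    rw [Finset.mem_coe, Finset.mem_filter] at hy
    have h1 := hy.1
    unfold Pool.Agent.TH181.MW.tup at h1 ⊢
    rw [Fintype.mem_piFinset] at h1
    rw [Finset.mem_coe, Fintype.mem_piFinset]
    intro i
    exact h1 i.succ
  · intro y hy y' hy' h
    rw [Finset.mem_coe, Finset.mem_filter] at hy hy'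
    have h1 := hy.2
    have h2 := hy'.2
    rw [Fin.sum_univ_succ] at h1 h2
    have h3 : ∑ i : Fin s, y i.succ = ∑ i : Fin s, y' i.succ :=
      Finset.sum_congr rfl fun i _ => congrFun h i
    funext i
    refine Fin.cases ?_ (fun i => congrFun h i) i
    omega

theorem E2_card (s N : ℕ) : (E2 (s + 1) N).card ≤ N ^ (2 * s + 1) := by
  classical
  have h1 : (E2 (s + 1) N).card = ∑ x ∈ tup (s + 1) N,
      ((tup (s + 1) N).filter (fun y => ∑ i, y i = ∑ i, x i)).card := by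
    unfold E2 T2
    rw [Finset.card_eq_sum_ones, Finset.sum_filter, Finset.sum_product]
    apply Finset.sum_congr rfl
    intro x _
    rw [Finset.card_eq_sum_ones, Finset.sum_filter]
    apply Finset.sum_congr rfl
    intro y _
    unfold l1
    have : (((∑ i, x i : ℕ) : ℤ) - ((∑ i, y i : ℕ) : ℤ) = 0) ↔ (∑ i, y i = ∑ i, x i) := by
      rw [sub_eq_zero]
      constructor
      · intro h; exact_mod_cast h.symm
      · intro h; rw [h]
    simp only [this]
  rw [h1]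
  refine (Finset.sum_le_sum fun x _ => fib_le s N _).trans ?_
  rw [Finset.sum_const, smul_eq_mul, tup_card, ← pow_add]
  exact Nat.le_of_eq (by congr 1; ring)

end Pool.Agent.N102.MW
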